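import Pool.Agent.H4.TA.Targets

/-!
# Row NWC of `tas_modules`: the probability of a new point
-/

set_option autoImplicit false

open Finset Pool.Agent.H43.TC Pool.Agent.H4.TA

namespace Pool.Agent.H64.TAS

theorem pf_NWC (hSPL : T_SPL) (hREV : T_REV) : T_NWC := by
  intro k t i hk hi
  obtain ⟨j, rfl⟩ : ∃ j, t = i + j := ⟨t - i, by omega⟩
  have h1 : ∀ w : Wd k (i + j), ind (Nw w i) =
      (fun u : Wd k i => ind (Nw u i)) (fun l => w (Fin.castAdd j l)) *
        (fun _ : Wd k j => (1 : ℝ)) (fun l => w (Fin.natAdd i l)) := by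
    intro w
    simp only [mul_one]
    have hw : w = Fin.append (fun l => w (Fin.castAdd j l)) (fun l => w (Fin.natAdd i l)) := by
      funext x
      refine Fin.addCases (fun l => ?_) (fun l => ?_) x
      · rw [Fin.append_left]
      · rw [Fin.append_right]
    have hp : ∀ l ≤ i, pos w l = pos (fun l => w (Fin.castAdd j l) : Wd k i) l := by
      intro l hl
      conv_lhs => rw [hw]
      exact pos_append_left _ _ hl
    apply ind_congr
    unfold Nw
    refine forall₂_congr fun l hl => ?_
    rw [hp l hl.le, hp i le_rfl]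
  have h2 : av (i + j) (fun w : Wd k (i + j) => ind (Nw w i)) =
      av i (fun u : Wd k i => ind (Nw u i)) := by
    have h3 : (fun w : Wd k (i + j) => ind (Nw w i)) = fun w : Wd k (i + j) =>
        (fun u : Wd k i => ind (Nw u i)) (fun l => w (Fin.castAdd j l)) *
        (fun _ : Wd k j => (1 : ℝ)) (fun l => w (Fin.natAdd i l)) := funext h1
    have h4 := hSPL k i j (fun u : Wd k i => ind (Nw u i)) (fun _ : Wd k j => (1 : ℝ)) hk
    rw [h3]
    exact h4.trans (by rw [av_const hk, mul_one])
  rw [h2, ← hREV k i (fun u : Wd k i => ind (Nw u i))]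
  unfold qq
  congr 1
  funext w
  apply ind_congr
  unfold Nw
  constructor
  · intro h m hm1 hmi h0
    have h4 := h (i - m) (by omega)
    rw [pos_rev w (by omega), pos_rev w le_rfl] at h4
    apply h4
    have h5 : i - (i - m) = m := by omega
    rw [h5, h0, Nat.sub_self, pos_zero]
  · intro h l hl h0
    rw [pos_rev w hl.le, pos_rev w le_rfl, Nat.sub_self, pos_zero, sub_zero, sub_eq_self] at h0
    exact h (i - l) (by omega) (by omega) h0

end Pool.Agent.H64.TAS
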