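import Pool.Agent.H4.TA.Targets

/-!
# Row TR2 of `tas_modules`: short walks on large tori
-/

set_option autoImplicit false

open Finset Pool.Agent.H43.TC Pool.Agent.H4.TA

namespace Pool.Agent.H64.TAS

/-- a step changes a coordinate by at most one -/
lemma stp_le {k : ℕ} (a : Fin k × Bool) (x : Fin k) : |stp a x| ≤ 1 := by
  unfold stp un
  split_ifs
  · by_cases h : x = a.1
    · subst h; simp
    · rw [Pi.single_eq_of_ne h]; simp
  · rw [Pi.neg_apply, abs_neg]
    by_cases h : x = a.1
    · subst h; simp
    · rw [Pi.single_eq_of_ne h]; simp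

/-- positions at nearby times are near -/
lemma pos_near {k t : ℕ} (w : Wd k t) (i j : ℕ) (x : Fin k) :
    |(pos w (i + j) - pos w i) x| ≤ j := by
  induction j with
  | zero => simp
  | succ j ih =>
    rw [← add_assoc]
    by_cases h : i + j < t
    · rw [pos_succ w h]
      have h1 : (pos w (i + j) + stp (w ⟨i + j, h⟩) - pos w i) x =
          (pos w (i + j) - pos w i) x + stp (w ⟨i + j, h⟩) x := by
        simp only [Pi.sub_apply, Pi.add_apply]; ring
      rw [h1]
      refine (abs_add_le _ _).trans ?_
      have := stp_le (w ⟨i + j, h⟩) x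
      push_cast
      omega
    · have h1 : pos w (i + j + 1) = pos w (i + j) := by
        rw [pos_of_le w (by omega : t ≤ i + j + 1), pos_of_le w (by omega : t ≤ i + j)]
      rw [h1]
      push_cast
      omega

theorem pf_TR2 : T_TR2 := by
  classical
  intro k L t w x hL
  have key : ∀ i ≤ t, ∀ j ≤ t, pr (n := L) (pos w i) = pr (pos w j) → pos w i = pos w j := by
    have key1 : ∀ i j : ℕ, i + j ≤ t → pr (n := L) (pos w (i + j)) = pr (pos w i) →
        pos w (i + j) = pos w i := by
      intro i j hij h
      funext a
      have h1 := congrFun h a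
      have h2 : ((pos w (i + j) a : ℤ) : ZMod L) = ((pos w i a : ℤ) : ZMod L) := h1
      rw [ZMod.intCast_eq_intCast_iff_dvd_sub] at h2
      have h3 := pos_near w i j a
      have h4 : |(pos w i a - pos w (i + j) a)| < (L : ℤ) := by
        rw [abs_sub_comm]
        rw [Pi.sub_apply] at h3
        omega
      have h5 := Int.eq_zero_of_abs_lt_dvd h2 h4
      omega
    intro i hi j hj h
    rcases le_total i j with hij | hij
    · obtain ⟨d, rfl⟩ := Nat.exists_eq_add_of_le hij
      exact (key1 i d hj h.symm).symm
    · obtain ⟨d, rfl⟩ := Nat.exists_eq_add_of_le hij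
      exact key1 j d hi h
  unfold R
  have h1 : (range (t + 1)).image (fun i => x + pr (pos w i)) =
      ((range (t + 1)).image (pos w)).image (fun v => x + pr v) := by
    rw [image_image]; rfl
  rw [h1, card_image_of_injOn]
  intro a ha b hb hab
  rw [mem_coe, mem_image] at ha hb
  obtain ⟨i, hi, rfl⟩ := ha
  obtain ⟨j, hj, rfl⟩ := hb
  rw [mem_range] at hi hj
  exact key i (by omega) j (by omega) (add_left_cancel hab)

end Pool.Agent.H64.TAS
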